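import Mathlib

/-!
# Convergence of the repeated heat-bath updates of a block of sites
-/

set_option autoImplicit false

namespace Pool.Agent.H69.Potts

open Finset Filter Topology

variable {V Q : Type*} [Fintype V] [DecidableEq V] [Fintype Q] [DecidableEq Q]

/-- the heat-bath kernel at the site `i` for the weight `W` -/
noncomputable def hb (W : (V → Q) → ℝ) (i : V) : Matrix (V → Q) (V → Q) ℝ :=
  fun σ τ => if ∀ j, j ≠ i → τ j = σ j then W τ / ∑ c, W (Function.update σ i c) else 0

/-- agreement off the list `l` -/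
def Agree (l : List V) (σ τ : V → Q) : Prop := ∀ j, j ∉ l → τ j = σ j

theorem Agree.refl (l : List V) (σ : V → Q) : Agree l σ σ := fun _ _ => rfl
theorem Agree.symm {l : List V} {σ τ : V → Q} (h : Agree l σ τ) : Agree l τ σ :=
  fun j hj => (h j hj).symm
theorem Agree.trans {l : List V} {σ τ ρ : V → Q} (h : Agree l σ τ) (h' : Agree l τ ρ) :
    Agree l σ ρ := fun j hj => (h' j hj).trans (h j hj)

open Classical in
/-- the heat-bath kernel of the block of the sites in the list `l` -/
noncomputable def block (W : (V → Q) → ℝ) (l : List V) : Matrix (V → Q) (V → Q) ℝ :=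
  fun σ τ => if Agree l σ τ then W τ / ∑ ρ, (if Agree l σ ρ then W ρ else 0) else 0

theorem sum_update (i : V) (τ : V → Q) (f : (V → Q) → ℝ) :
    (∑ σ, if ∀ j, j ≠ i → τ j = σ j then f σ else 0) = ∑ c, f (Function.update τ i c) := by
  classical
  rw [← Finset.sum_filter]
  have : (Finset.univ.filter fun σ : V → Q => ∀ j, j ≠ i → τ j = σ j) =
      Finset.univ.image (fun c => Function.update τ i c) := by
    ext σ
    simp only [Finset.mem_filter, Finset.mem_univ, true_and, Finset.mem_image]
    constructor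
    · intro h
      refine ⟨σ i, ?_⟩
      funext j
      by_cases hj : j = i
      · subst hj; simp
      · rw [Function.update_of_ne hj, h j hj]
    · rintro ⟨c, rfl⟩ j hj
      rw [Function.update_of_ne hj]
  rw [this, Finset.sum_image]
  intro c _ d _ h
  exact Function.update_injective τ i h

theorem update_eq_of_agree {i : V} {σ τ : V → Q} (h : ∀ j, j ≠ i → τ j = σ j) (c : Q) :
    Function.update σ i c = Function.update τ i c := by
  funext j
  by_cases hj : j = i
  · subst hj; simp
  · rw [Function.update_of_ne hj, Function.update_of_ne hj, h j hj]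

variable {W : (V → Q) → ℝ} (hW : ∀ σ, 0 < W σ)

include hW in
theorem sumW_pos (i : V) (σ : V → Q) : 0 < ∑ c, W (Function.update σ i c) := by
  refine Finset.sum_pos (fun c _ => hW _) ⟨σ i, Finset.mem_univ _⟩

include hW in
theorem hb_row (i : V) (σ : V → Q) : ∑ τ, hb W i σ τ = 1 := by
  have h1 : ∀ τ, hb W i σ τ = if ∀ j, j ≠ i → σ j = τ j then
      W τ / ∑ c, W (Function.update σ i c) else 0 := by
    intro τ
    unfold hb
    have : (∀ j, j ≠ i → τ j = σ j) ↔ (∀ j, j ≠ i → σ j = τ j) :=
      forall_congr' fun j => forall_congr' fun _ => eq_comm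
    simp only [this]
  simp_rw [h1]
  rw [sum_update i σ (fun τ => W τ / ∑ c, W (Function.update σ i c)), ← Finset.sum_div]
  exact div_self (sumW_pos hW i σ).ne'

include hW in
theorem hb_nonneg (i : V) (σ τ : V → Q) : 0 ≤ hb W i σ τ := by
  unfold hb
  split_ifs
  · exact div_nonneg (hW _).le (sumW_pos hW i σ).le
  · exact le_rfl

/-- the update of a vector -/
theorem vecMul_hb (μ : (V → Q) → ℝ) (i : V) (τ : V → Q) :
    Matrix.vecMul μ (hb W i) τ = (∑ c, μ (Function.update τ i c)) *
      (W τ / ∑ c, W (Function.update τ i c)) := by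
  have h1 : ∀ σ, μ σ * hb W i σ τ = if ∀ j, j ≠ i → τ j = σ j then
      μ σ * (W τ / ∑ c, W (Function.update τ i c)) else 0 := by
    intro σ
    unfold hb
    by_cases h : ∀ j, j ≠ i → τ j = σ j
    · rw [if_pos h, if_pos h]
      simp_rw [update_eq_of_agree h]
    · rw [if_neg h, if_neg h, mul_zero]
  unfold Matrix.vecMul dotProduct
  simp_rw [h1]
  rw [sum_update i τ (fun σ => μ σ * (W τ / ∑ c, W (Function.update τ i c))), Finset.sum_mul]

open Classical in
include hW in
theorem fibre_pos (l : List V) (σ : V → Q) : 0 < ∑ ρ, (if Agree l σ ρ then W ρ else 0) := by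
  refine Finset.sum_pos' (fun ρ _ => ?_) ⟨σ, Finset.mem_univ _, ?_⟩
  · split_ifs
    · exact (hW _).le
    · exact le_rfl
  · rw [if_pos (Agree.refl l σ)]
    exact hW _

open Classical in
theorem fibre_eq {l : List V} {σ τ : V → Q} (h : Agree l σ τ) :
    ∑ ρ, (if Agree l σ ρ then W ρ else 0) = ∑ ρ, (if Agree l τ ρ then W ρ else 0) := by
  refine Finset.sum_congr rfl fun ρ _ => ?_
  have : Agree l σ ρ ↔ Agree l τ ρ := ⟨fun h' => h.symm.trans h', fun h' => h.trans h'⟩
  simp only [this]

open Classical in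
include hW in
theorem block_row (l : List V) (σ : V → Q) : ∑ τ, block W l σ τ = 1 := by
  have h1 : ∀ τ, block W l σ τ = (if Agree l σ τ then W τ else 0) /
      ∑ ρ, (if Agree l σ ρ then W ρ else 0) := by
    intro τ
    unfold block
    split_ifs
    · rfl
    · rw [zero_div]
  simp_rw [h1]
  rw [← Finset.sum_div]
  exact div_self (fibre_pos hW l σ).ne'

include hW in
theorem block_nonneg (l : List V) (σ τ : V → Q) : 0 ≤ block W l σ τ := by
  classical
  unfold block
  split_ifs
  · exact div_nonneg (hW _).le (by convert (fibre_pos hW l σ).le)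
  · exact le_rfl

include hW in
theorem block_le_one (l : List V) (σ τ : V → Q) : block W l σ τ ≤ 1 := by
  rw [← block_row hW l σ]
  exact Finset.single_le_sum (f := fun τ => block W l σ τ) (fun τ _ => block_nonneg hW l σ τ)
    (Finset.mem_univ τ)

theorem block_congr {l : List V} {σ σ' : V → Q} (h : Agree l σ σ') (τ : V → Q) :
    block W l σ τ = block W l σ' τ := by
  classical
  unfold block
  have h1 : Agree l σ τ ↔ Agree l σ' τ := ⟨fun h' => h.symm.trans h', fun h' => h.trans h'⟩
  rw [fibre_eq h]
  simp only [h1]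

include hW in
/-- stationarity -/
theorem block_mul_hb (l : List V) (i : V) (hi : i ∈ l) : block W l * hb W i = block W l := by
  classical
  ext σ τ
  have h0 : (block W l * hb W i) σ τ = Matrix.vecMul (fun ρ => block W l σ ρ) (hb W i) τ := rfl
  rw [h0, vecMul_hb]
  have h1 : ∀ c, block W l σ (Function.update τ i c) =
      if Agree l σ τ then W (Function.update τ i c) / ∑ ρ, (if Agree l σ ρ then W ρ else 0)
      else 0 := by
    intro c
    unfold block
    have : Agree l σ (Function.update τ i c) ↔ Agree l σ τ := by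
      unfold Agree
      refine forall_congr' fun j => forall_congr' fun hj => ?_
      rw [Function.update_of_ne (fun h => hj (by rw [h]; exact hi))]
    simp only [this]
  simp_rw [h1]
  unfold block
  by_cases h : Agree l σ τ
  · simp only [if_pos h]
    rw [← Finset.sum_div]
    have h2 := (sumW_pos hW i τ).ne'
    have h3 := (fibre_pos hW l σ).ne'
    field_simp
  · simp only [if_neg h, Finset.sum_const_zero, zero_mul]

include hW in
theorem hb_mul_block (l : List V) (i : V) (hi : i ∈ l) : hb W i * block W l = block W l := by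
  classical
  ext σ τ
  rw [Matrix.mul_apply]
  have h1 : ∀ ρ, hb W i σ ρ * block W l ρ τ = hb W i σ ρ * block W l σ τ := by
    intro ρ
    by_cases h : ∀ j, j ≠ i → ρ j = σ j
    · congr 1
      refine (block_congr ?_ τ).symm
      intro j hj
      exact h j fun hji => hj (hji ▸ hi)
    · unfold hb
      rw [if_neg h, zero_mul, zero_mul]
  simp_rw [h1]
  rw [← Finset.sum_mul, hb_row hW, one_mul]

include hW in
theorem block_mul_block (l : List V) : block W l * block W l = block W l := by
  classical
  ext σ τ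
  rw [Matrix.mul_apply]
  have h1 : ∀ ρ, block W l σ ρ * block W l ρ τ = block W l σ ρ * block W l σ τ := by
    intro ρ
    by_cases h : Agree l σ ρ
    · rw [block_congr h τ]
    · have : block W l σ ρ = 0 := by
        unfold block
        rw [if_neg h]
      rw [this, zero_mul, zero_mul]
  simp_rw [h1]
  rw [← Finset.sum_mul, block_row hW, one_mul]

/-- the kernel of the successive updates at the sites of a list -/
noncomputable def sweep (W : (V → Q) → ℝ) (l : List V) : Matrix (V → Q) (V → Q) ℝ :=
  (l.map (hb W)).prod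

include hW in
theorem sweep_row (l : List V) (σ : V → Q) : ∑ τ, sweep W l σ τ = 1 := by
  induction l generalizing σ with
  | nil =>
    unfold sweep
    simp [Matrix.one_apply]
  | cons i l ih =>
    have h0 : sweep W (i :: l) = hb W i * sweep W l := by simp [sweep]
    rw [h0]
    simp_rw [Matrix.mul_apply]
    rw [Finset.sum_comm]
    simp_rw [← Finset.mul_sum, ih, mul_one]
    exact hb_row hW i σ

include hW in
theorem sweep_nonneg (l : List V) (σ τ : V → Q) : 0 ≤ sweep W l σ τ := by
  induction l generalizing σ with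
  | nil =>
    unfold sweep
    rw [List.map_nil, List.prod_nil, Matrix.one_apply]
    split_ifs <;> norm_num
  | cons i l ih =>
    have h0 : sweep W (i :: l) = hb W i * sweep W l := by simp [sweep]
    rw [h0, Matrix.mul_apply]
    exact Finset.sum_nonneg fun ρ _ => mul_nonneg (hb_nonneg hW i σ ρ) (ih ρ)

include hW in
theorem block_mul_sweep (L : List V) (l : List V) (hl : ∀ i ∈ l, i ∈ L) :
    block W L * sweep W l = block W L := by
  induction l with
  | nil => simp [sweep]
  | cons i l ih =>
    have h0 : sweep W (i :: l) = hb W i * sweep W l := by simp [sweep]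
    rw [h0, ← Matrix.mul_assoc, block_mul_hb hW L i (hl i List.mem_cons_self)]
    exact ih fun j hj => hl j (List.mem_cons_of_mem _ hj)

include hW in
theorem sweep_mul_block (L : List V) (l : List V) (hl : ∀ i ∈ l, i ∈ L) :
    sweep W l * block W L = block W L := by
  induction l with
  | nil => simp [sweep]
  | cons i l ih =>
    have h0 : sweep W (i :: l) = hb W i * sweep W l := by simp [sweep]
    rw [h0, Matrix.mul_assoc, ih fun j hj => hl j (List.mem_cons_of_mem _ hj),
      hb_mul_block hW L i (hl i List.mem_cons_self)]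

include hW in
theorem exists_c0 : ∃ c0 : ℝ, 0 < c0 ∧ c0 ≤ 1 ∧ ∀ (i : V) (σ τ : V → Q),
    (∀ j, j ≠ i → τ j = σ j) → c0 ≤ hb W i σ τ := by
  classical
  have h : ∀ p : V × (V → Q) × (V → Q), ∃ c : ℝ, 0 < c ∧ c ≤ 1 ∧
      ((∀ j, j ≠ p.1 → p.2.2 j = p.2.1 j) → c ≤ hb W p.1 p.2.1 p.2.2) := by
    rintro ⟨i, σ, τ⟩
    by_cases h : ∀ j, j ≠ i → τ j = σ j
    · have hpos : 0 < hb W i σ τ := by
        unfold hb
        rw [if_pos h]
        exact div_pos (hW _) (sumW_pos hW i σ)
      have hle : hb W i σ τ ≤ 1 := by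
        rw [← hb_row hW i σ]
        exact Finset.single_le_sum (f := fun τ => hb W i σ τ) (fun τ _ => hb_nonneg hW i σ τ)
          (Finset.mem_univ τ)
      exact ⟨_, hpos, hle, fun _ => le_rfl⟩
    · exact ⟨1, one_pos, le_rfl, fun h' => absurd h' h⟩
  choose c hc0 hc1 hc using h
  rcases isEmpty_or_nonempty (V × (V → Q) × (V → Q)) with he | hne
  · exact ⟨1, one_pos, le_rfl, fun i σ τ _ => (he.false (i, σ, τ)).elim⟩
  · obtain ⟨p0, hp0⟩ := Finite.exists_min c
    exact ⟨c p0, hc0 p0, hc1 p0, fun i σ τ h => (hp0 (i, σ, τ)).trans (hc (i, σ, τ) h)⟩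

include hW in
theorem exists_lower (l : List V) : ∃ c : ℝ, 0 < c ∧ c ≤ 1 ∧ ∀ σ τ : V → Q, Agree l σ τ →
    c ≤ sweep W l σ τ := by
  obtain ⟨c0, hc0, hc1, h⟩ := exists_c0 hW
  induction l with
  | nil =>
    refine ⟨1, one_pos, le_rfl, fun σ τ hst => ?_⟩
    have : τ = σ := funext fun j => hst j (by simp)
    subst this
    simp [sweep]
  | cons i l ih =>
    obtain ⟨c, hc, hc', hl⟩ := ih
    refine ⟨c0 * c, mul_pos hc0 hc, mul_le_one₀ hc1 hc.le hc', fun σ τ hst => ?_⟩
    have h0 : sweep W (i :: l) = hb W i * sweep W l := by simp [sweep]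
    rw [h0, Matrix.mul_apply]
    refine le_trans ?_ (Finset.single_le_sum
      (f := fun ρ => hb W i σ ρ * sweep W l ρ τ)
      (fun ρ _ => mul_nonneg (hb_nonneg hW i σ ρ) (sweep_nonneg hW l ρ τ))
      (Finset.mem_univ (Function.update σ i (τ i))))
    refine mul_le_mul (h i σ _ fun j hj => Function.update_of_ne hj _ _) (hl _ _ ?_) hc.le
      (hb_nonneg hW _ _ _)
    intro j hj
    by_cases hji : j = i
    · subst hji
      simp
    · rw [Function.update_of_ne hji]
      exact hst j (by
        rw [List.mem_cons, not_or]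
        exact ⟨hji, hj⟩)

include hW in
/-- **Convergence of the repeated sweeps to the heat-bath kernel of the block.** -/
theorem tendsto_sweep (l : List V) : Tendsto (fun K : ℕ => sweep W l ^ K) atTop
    (𝓝 (block W l)) := by
  classical
  obtain ⟨c, hc, hc1, hlow⟩ := exists_lower hW l
  set M := sweep W l with hM
  set B := block W l with hB
  have hBM : B * M = B := block_mul_sweep hW l l fun i hi => hi
  have hMB : M * B = B := sweep_mul_block hW l l fun i hi => hi
  have hBB : B * B = B := block_mul_block hW l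
  have hNM : ∀ σ τ, 0 ≤ M σ τ - c * B σ τ := by
    intro σ τ
    by_cases h : Agree l σ τ
    · have h1 := hlow σ τ h
      have h2 := block_le_one hW l σ τ
      have h3 : c * B σ τ ≤ c * 1 := mul_le_mul_of_nonneg_left h2 hc.le
      linarith
    · have : B σ τ = 0 := by
        rw [hB]
        unfold block
        rw [if_neg h]
      rw [this, mul_zero, sub_zero]
      exact sweep_nonneg hW l σ τ
  have hMKB : ∀ K : ℕ, M ^ K * B = B := by
    intro K
    induction K with
    | zero => rw [pow_zero, one_mul]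
    | succ K ih => rw [pow_succ, Matrix.mul_assoc, hMB, ih]
  have key : ∀ (σ : V → Q) (K : ℕ), ∑ τ, |(M ^ K) σ τ - B σ τ| ≤
      (1 - c) ^ K * ∑ τ, |(1 : Matrix (V → Q) (V → Q) ℝ) σ τ - B σ τ| := by
    intro σ K
    induction K with
    | zero => simp
    | succ K ih =>
      have h1 : ∀ τ, (M ^ (K + 1)) σ τ - B σ τ =
          ∑ ρ, ((M ^ K) σ ρ - B σ ρ) * (M ρ τ - c * B ρ τ) := by
        intro τ
        have e1 : ∑ ρ, (M ^ K) σ ρ * M ρ τ = (M ^ (K + 1)) σ τ := by
          rw [pow_succ, Matrix.mul_apply]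
        have e2 : ∑ ρ, (M ^ K) σ ρ * B ρ τ = B σ τ := by
          rw [← Matrix.mul_apply, hMKB]
        have e3 : ∑ ρ, B σ ρ * M ρ τ = B σ τ := by
          rw [← Matrix.mul_apply, hBM]
        have e4 : ∑ ρ, B σ ρ * B ρ τ = B σ τ := by
          rw [← Matrix.mul_apply, hBB]
        have e5 : ∀ ρ, ((M ^ K) σ ρ - B σ ρ) * (M ρ τ - c * B ρ τ) =
            (M ^ K) σ ρ * M ρ τ - c * ((M ^ K) σ ρ * B ρ τ) - B σ ρ * M ρ τ +
              c * (B σ ρ * B ρ τ) := fun ρ => by ring
        simp_rw [e5]
        rw [Finset.sum_add_distrib, Finset.sum_sub_distrib, Finset.sum_sub_distrib,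
          ← Finset.mul_sum, ← Finset.mul_sum, e1, e2, e3, e4]
        ring
      calc ∑ τ, |(M ^ (K + 1)) σ τ - B σ τ|
          ≤ ∑ τ, ∑ ρ, |(M ^ K) σ ρ - B σ ρ| * (M ρ τ - c * B ρ τ) := by
            refine Finset.sum_le_sum fun τ _ => ?_
            rw [h1 τ]
            refine (Finset.abs_sum_le_sum_abs _ _).trans (Finset.sum_le_sum fun ρ _ => ?_)
            rw [abs_mul, abs_of_nonneg (hNM ρ τ)]
        _ = ∑ ρ, |(M ^ K) σ ρ - B σ ρ| * (1 - c) := by
            rw [Finset.sum_comm]
            refine Finset.sum_congr rfl fun ρ _ => ?_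
            rw [← Finset.mul_sum, Finset.sum_sub_distrib, ← Finset.mul_sum, sweep_row hW,
              block_row hW, mul_one]
        _ = (1 - c) * ∑ τ, |(M ^ K) σ τ - B σ τ| := by
            rw [← Finset.sum_mul, mul_comm]
        _ ≤ (1 - c) * ((1 - c) ^ K * ∑ τ, |(1 : Matrix (V → Q) (V → Q) ℝ) σ τ - B σ τ|) :=
            mul_le_mul_of_nonneg_left ih (by linarith)
        _ = _ := by ring
  refine tendsto_pi_nhds.2 fun σ => tendsto_pi_nhds.2 fun τ => ?_
  have hlim : Tendsto (fun K : ℕ => (1 - c) ^ K *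
      ∑ τ, |(1 : Matrix (V → Q) (V → Q) ℝ) σ τ - B σ τ|) atTop (𝓝 0) := by
    have := (tendsto_pow_atTop_nhds_zero_of_lt_one (r := 1 - c) (by linarith)
      (by linarith)).mul_const (∑ τ, |(1 : Matrix (V → Q) (V → Q) ℝ) σ τ - B σ τ|)
    rwa [zero_mul] at this
  rw [tendsto_iff_norm_sub_tendsto_zero]
  refine squeeze_zero (fun K => norm_nonneg _) (fun K => ?_) hlim
  rw [Real.norm_eq_abs]
  exact (Finset.single_le_sum (f := fun τ => |(M ^ K) σ τ - B σ τ|) (fun _ _ => abs_nonneg _)
    (Finset.mem_univ τ)).trans (key σ K)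

end Pool.Agent.H69.Potts
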