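import Mathlib
import Pool.Agent.H69.Potts.GC

/-!
# Lifting a comparison of two update sequences to a larger system
-/

set_option autoImplicit false

namespace Pool.Agent.H69.Potts

open Finset Filter Topology

variable {V T Q : Type*} [Fintype V] [DecidableEq V] [Fintype T] [DecidableEq T] [Fintype Q]
  [DecidableEq Q]

theorem sum_sum_elim (f : (V ⊕ T → Q) → ℝ) :
    ∑ ρ, f ρ = ∑ σ : V → Q, ∑ τ : T → Q, f (Sum.elim σ τ) := by
  rw [← (Equiv.sumArrowEquivProdArrow V T Q).symm.sum_comp, Fintype.sum_prod_type]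
  rfl

/-- the marginal on the first summand -/
noncomputable def marg (μ : (V ⊕ T → Q) → ℝ) (σ : V → Q) : ℝ := ∑ τ : T → Q, μ (Sum.elim σ τ)

/-- the list of one site of the first summand and all the sites of the second -/
noncomputable def blk (T : Type*) [Fintype T] (j : V) : List (V ⊕ T) :=
  Sum.inl j :: (Finset.univ : Finset T).toList.map Sum.inr

/-- the conditional law of the configuration on the second summand -/
noncomputable def kap (W : (V ⊕ T → Q) → ℝ) (ρ : V ⊕ T → Q) : ℝ :=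
  W ρ / marg W (fun i => ρ (Sum.inl i))

theorem agree_blk (j : V) (ρ ρ' : V ⊕ T → Q) : Agree (blk T j) ρ ρ' ↔
    ∀ i, i ≠ j → ρ' (Sum.inl i) = ρ (Sum.inl i) := by
  unfold Agree blk
  constructor
  · intro h i hi
    refine h (Sum.inl i) ?_
    simp [hi]
  · intro h i hi
    rcases i with i | t
    · refine h i fun hij => hi ?_
      simp [hij]
    · exact absurd (by simp) hi

variable {W : (V ⊕ T → Q) → ℝ} (hW : ∀ ρ, 0 < W ρ)

include hW in
theorem marg_pos [Nonempty (T → Q)] (σ : V → Q) : 0 < marg W σ :=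
  Finset.sum_pos (fun _ _ => hW _) Finset.univ_nonempty

theorem fibre_blk (j : V) (ρ : V ⊕ T → Q) [∀ ρ', Decidable (Agree (blk T j) ρ ρ')] :
    ∑ ρ', (if Agree (blk T j) ρ ρ' then W ρ' else 0) =
      ∑ c, marg W (Function.update (fun i => ρ (Sum.inl i)) j c) := by
  classical
  rw [← sum_update j (fun i => ρ (Sum.inl i)) (marg W), sum_sum_elim]
  refine Finset.sum_congr rfl fun σ _ => ?_
  have h : ∀ τ : T → Q, Agree (blk T j) ρ (Sum.elim σ τ) ↔
      ∀ i, i ≠ j → ρ (Sum.inl i) = σ i := by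
    intro τ
    rw [agree_blk]
    refine forall_congr' fun i => forall_congr' fun _ => ?_
    rw [Sum.elim_inl, eq_comm]
  by_cases hc : ∀ i, i ≠ j → ρ (Sum.inl i) = σ i
  · rw [if_pos hc]
    unfold marg
    refine Finset.sum_congr rfl fun τ _ => ?_
    rw [if_pos ((h τ).2 hc)]
  · rw [if_neg hc]
    refine Finset.sum_eq_zero fun τ _ => ?_
    rw [if_neg fun h' => hc ((h τ).1 h')]

include hW in
theorem block_blk (j : V) (ρ ρ' : V ⊕ T → Q) : block W (blk T j) ρ ρ' =
    hb (marg W) j (fun i => ρ (Sum.inl i)) (fun i => ρ' (Sum.inl i)) * kap W ρ' := by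
  classical
  haveI : Nonempty (T → Q) := ⟨fun t => ρ (Sum.inr t)⟩
  unfold block hb kap
  have hp := (marg_pos hW (fun i => ρ' (Sum.inl i))).ne'
  by_cases h : Agree (blk T j) ρ ρ'
  · rw [if_pos h, if_pos ((agree_blk j ρ ρ').1 h), fibre_blk]
    rw [div_mul_div_comm, mul_comm (∑ c, _) _, mul_div_mul_left _ _ hp]
  · rw [if_neg h, if_neg fun h' => h ((agree_blk j ρ ρ').2 h'), zero_mul]

include hW in
theorem vecMul_block (μ : (V ⊕ T → Q) → ℝ) (j : V) (ρ' : V ⊕ T → Q) :
    Matrix.vecMul μ (block W (blk T j)) ρ' =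
      Matrix.vecMul (marg μ) (hb (marg W) j) (fun i => ρ' (Sum.inl i)) * kap W ρ' := by
  unfold Matrix.vecMul dotProduct
  rw [sum_sum_elim, Finset.sum_mul]
  refine Finset.sum_congr rfl fun σ _ => ?_
  unfold marg
  rw [Finset.sum_mul, Finset.sum_mul]
  refine Finset.sum_congr rfl fun τ _ => ?_
  change μ (Sum.elim σ τ) * block W (blk T j) (Sum.elim σ τ) ρ' =
    μ (Sum.elim σ τ) * hb (marg W) j σ (fun i => ρ' (Sum.inl i)) * kap W ρ'
  rw [block_blk hW]
  simp only [Sum.elim_inl]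
  ring

include hW in
theorem sum_kap [Nonempty (T → Q)] (σ : V → Q) : ∑ τ : T → Q, kap W (Sum.elim σ τ) = 1 := by
  unfold kap
  simp only [Sum.elim_inl]
  rw [← Finset.sum_div]
  exact div_self (marg_pos hW σ).ne'

include hW in
theorem marg_kap [Nonempty (T → Q)] (f : (V → Q) → ℝ) :
    marg (fun ρ : V ⊕ T → Q => f (fun i => ρ (Sum.inl i)) * kap W ρ) = f := by
  funext σ
  have : marg (fun ρ : V ⊕ T → Q => f (fun i => ρ (Sum.inl i)) * kap W ρ) σ =
      ∑ τ : T → Q, f σ * kap W (Sum.elim σ τ) := rfl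
  rw [this, ← Finset.mul_sum, sum_kap hW, mul_one]

include hW in
theorem vecMul_blocks [Nonempty (T → Q)] (v : List V) : ∀ (_ : v ≠ []) (μ : (V ⊕ T → Q) → ℝ),
    Matrix.vecMul μ ((v.map fun j => block W (blk T j)).prod) =
      fun ρ => Matrix.vecMul (marg μ) (sweep (marg W) v) (fun i => ρ (Sum.inl i)) * kap W ρ := by
  induction v with
  | nil => intro h; exact absurd rfl h
  | cons j v ih =>
    intro _ μ
    rcases eq_or_ne v [] with rfl | hv
    · funext ρ
      have h1 : (([j] : List V).map fun j => block W (blk T j)).prod = block W (blk T j) := by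
        simp
      have h2 : sweep (marg W) [j] = hb (marg W) j := by simp [sweep]
      rw [h1, h2, vecMul_block hW]
    · have h1 : ((j :: v).map fun j => block W (blk T j)).prod =
        block W (blk T j) * (v.map fun j => block W (blk T j)).prod := by simp
      have h2 : sweep (marg W) (j :: v) = hb (marg W) j * sweep (marg W) v := by simp [sweep]
      rw [h1, h2, ← Matrix.vecMul_vecMul, ih hv, ← Matrix.vecMul_vecMul]
      have h3 : marg (Matrix.vecMul μ (block W (blk T j))) =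
          Matrix.vecMul (marg μ) (hb (marg W) j) := by
        have : Matrix.vecMul μ (block W (blk T j)) = fun ρ =>
            Matrix.vecMul (marg μ) (hb (marg W) j) (fun i => ρ (Sum.inl i)) * kap W ρ :=
          funext fun ρ => vecMul_block hW μ j ρ
        rw [this, marg_kap hW]
      rw [h3]

include hW in
theorem kap_nonneg [Nonempty (T → Q)] (ρ : V ⊕ T → Q) : 0 ≤ kap W ρ :=
  div_nonneg (hW _).le (marg_pos hW _).le

include hW in
theorem norm_kap [Nonempty (T → Q)] (f h : (V → Q) → ℝ) :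
    ∑ ρ : V ⊕ T → Q, |f (fun i => ρ (Sum.inl i)) * kap W ρ -
      h (fun i => ρ (Sum.inl i)) * kap W ρ| = ∑ σ, |f σ - h σ| := by
  rw [sum_sum_elim]
  refine Finset.sum_congr rfl fun σ _ => ?_
  have : ∀ τ : T → Q, |f (fun i => (Sum.elim σ τ : V ⊕ T → Q) (Sum.inl i)) *
      kap W (Sum.elim σ τ) - h (fun i => (Sum.elim σ τ : V ⊕ T → Q) (Sum.inl i)) *
      kap W (Sum.elim σ τ)| = |f σ - h σ| * kap W (Sum.elim σ τ) := by
    intro τ
    simp only [Sum.elim_inl]
    rw [← sub_mul, abs_mul, abs_of_nonneg (kap_nonneg hW _)]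
  simp_rw [this]
  rw [← Finset.mul_sum, sum_kap hW, mul_one]

theorem sum_marg : ∑ σ : V → Q, marg W σ = ∑ ρ, W ρ := by
  rw [sum_sum_elim]
  rfl

include hW in
theorem gibbs_eq [Nonempty (T → Q)] (ρ : V ⊕ T → Q) : W ρ / ∑ ρ', W ρ' =
    (marg W (fun i => ρ (Sum.inl i)) / ∑ σ : V → Q, marg W σ) * kap W ρ := by
  unfold kap
  rw [sum_marg]
  have := (marg_pos hW (fun i => ρ (Sum.inl i))).ne'
  rw [div_mul_div_comm, mul_comm (∑ ρ', W ρ') _, mul_div_mul_left _ _ this]

/-- the blown-up sequence of updates -/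
noncomputable def blow (T : Type*) [Fintype T] (K : ℕ) (v : List V) : List (V ⊕ T) :=
  v.flatMap fun j => (List.replicate K (blk T j)).flatten

theorem blow_sublist (K : ℕ) {v w : List V} (h : w.Sublist v) :
    (blow T K w).Sublist (blow T K v) := by
  unfold blow
  exact h.flatMap _

theorem sweep_append (W : (V ⊕ T → Q) → ℝ) (l l' : List (V ⊕ T)) :
    sweep W (l ++ l') = sweep W l * sweep W l' := by
  unfold sweep
  rw [List.map_append, List.prod_append]

theorem sweep_replicate (W : (V ⊕ T → Q) → ℝ) (l : List (V ⊕ T)) (K : ℕ) :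
    sweep W ((List.replicate K l).flatten) = sweep W l ^ K := by
  induction K with
  | zero => simp [sweep]
  | succ K ih =>
    rw [List.replicate_succ, List.flatten_cons, sweep_append, ih, pow_succ']

theorem sweep_blow (W : (V ⊕ T → Q) → ℝ) (K : ℕ) (v : List V) :
    sweep W (blow T K v) = (v.map fun j => sweep W (blk T j) ^ K).prod := by
  induction v with
  | nil => simp [blow, sweep]
  | cons j v ih =>
    have h1 : blow T K (j :: v) = (List.replicate K (blk T j)).flatten ++ blow T K v := by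
      simp [blow]
    rw [h1, sweep_append, sweep_replicate, ih]
    simp

include hW in
theorem tendsto_blow [Nonempty (T → Q)] (μ : (V ⊕ T → Q) → ℝ) (v : List V) (hv : v ≠ []) :
    Tendsto (fun K : ℕ => ∑ ρ, |Matrix.vecMul μ (sweep W (blow T K v)) ρ - W ρ / ∑ ρ', W ρ'|)
      atTop (𝓝 (∑ σ, |Matrix.vecMul (marg μ) (sweep (marg W) v) σ -
        marg W σ / ∑ σ', marg W σ'|)) := by
  have h1 : Tendsto (fun K : ℕ => sweep W (blow T K v)) atTop
      (𝓝 ((v.map fun j => block W (blk T j)).prod)) := by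
    simp_rw [sweep_blow]
    exact tendsto_list_prod v fun j _ => tendsto_sweep hW (blk T j)
  have h2 : ∀ ρ, Tendsto (fun K : ℕ => Matrix.vecMul μ (sweep W (blow T K v)) ρ) atTop
      (𝓝 (Matrix.vecMul μ ((v.map fun j => block W (blk T j)).prod) ρ)) := by
    intro ρ
    unfold Matrix.vecMul dotProduct
    refine tendsto_finsetSum _ fun σ _ => ?_
    exact (tendsto_pi_nhds.1 (tendsto_pi_nhds.1 h1 σ) ρ).const_mul _
  have h3 : Tendsto (fun K : ℕ => ∑ ρ, |Matrix.vecMul μ (sweep W (blow T K v)) ρ -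
      W ρ / ∑ ρ', W ρ'|) atTop
      (𝓝 (∑ ρ, |Matrix.vecMul μ ((v.map fun j => block W (blk T j)).prod) ρ -
        W ρ / ∑ ρ', W ρ'|)) :=
    tendsto_finsetSum _ fun ρ _ => ((h2 ρ).sub_const _).abs
  rw [vecMul_blocks hW v hv] at h3
  simp_rw [gibbs_eq hW] at h3 ⊢
  rw [norm_kap hW (Matrix.vecMul (marg μ) (sweep (marg W) v))
    (fun σ => marg W σ / ∑ σ', marg W σ')] at h3
  exact h3

include hW in
/-- **The lift.** -/
theorem lift [Nonempty (T → Q)] (μ : (V ⊕ T → Q) → ℝ) (v w : List V) (hv : v ≠ [])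
    (hw : w ≠ [])
    (h : ∑ σ, |Matrix.vecMul (marg μ) (sweep (marg W) w) σ - marg W σ / ∑ σ', marg W σ'| <
      ∑ σ, |Matrix.vecMul (marg μ) (sweep (marg W) v) σ - marg W σ / ∑ σ', marg W σ'|) :
    ∃ K : ℕ, ∑ ρ, |Matrix.vecMul μ (sweep W (blow T K w)) ρ - W ρ / ∑ ρ', W ρ'| <
      ∑ ρ, |Matrix.vecMul μ (sweep W (blow T K v)) ρ - W ρ / ∑ ρ', W ρ'| :=
  ((tendsto_blow hW μ w hw).eventually_lt (tendsto_blow hW μ v hv) h).exists

end Pool.Agent.H69.Potts
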