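import Mathlib
import Pool.Agent.H69.Potts.GD

/-!
# The weight of a chain of middle vertices, and the case of a constant weight
-/

set_option autoImplicit false

namespace Pool.Agent.H69.Potts

open Finset Filter Topology

section Gadget

variable {n q : ℕ}

/-- the edges of a graph on `Fin n`, as increasing pairs -/
abbrev Ed (G : SimpleGraph (Fin n)) : Type := {p : Fin n × Fin n // p.1 < p.2 ∧ G.Adj p.1 p.2}

/-- the graph in which every edge of `G` is replaced by `M` paths of length two -/
def gadget (G : SimpleGraph (Fin n)) (M : ℕ) : SimpleGraph (Fin n ⊕ (Ed G × Fin M)) where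
  Adj a b := match a, b with
    | Sum.inl i, Sum.inr t => i = t.1.1.1 ∨ i = t.1.1.2
    | Sum.inr t, Sum.inl i => i = t.1.1.1 ∨ i = t.1.1.2
    | Sum.inl _, Sum.inl _ => False
    | Sum.inr _, Sum.inr _ => False
  symm := ⟨by
    rintro (i | t) (j | s) h
    · exact h
    · exact h
    · exact h
    · exact h⟩
  loopless := ⟨by
    rintro (i | t) h
    · exact h
    · exact h⟩

theorem gadget_colorable (G : SimpleGraph (Fin n)) (M : ℕ) : (gadget G M).Colorable 2 := by
  refine ⟨SimpleGraph.Coloring.mk (fun a => Sum.elim (fun _ => 0) (fun _ => 1) a) ?_⟩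
  rintro (i | t) (j | s) h
  · exact absurd h (by simp [gadget])
  · simp
  · simp
  · exact absurd h (by simp [gadget])

theorem sum_ind_pair {a b : Fin n} (hab : a ≠ b) (P : Fin n → Prop) [DecidablePred P]
    [∀ i, Decidable ((i = a ∨ i = b) ∧ P i)] :
    ∑ i, (if (i = a ∨ i = b) ∧ P i then (1 : ℝ) else 0) =
      (if P a then 1 else 0) + (if P b then 1 else 0) := by
  have h : ∀ i, (if (i = a ∨ i = b) ∧ P i then (1 : ℝ) else 0) =
      (if i = a then (if P a then 1 else 0) else 0) +
        (if i = b then (if P b then 1 else 0) else 0) := by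
    intro i
    by_cases h1 : i = a
    · subst h1
      simp [hab]
    · by_cases h2 : i = b
      · subst h2
        simp [h1]
      · simp [h1, h2]
  simp_rw [h]
  rw [Finset.sum_add_distrib, Finset.sum_ite_eq' Finset.univ a, Finset.sum_ite_eq' Finset.univ b,
    if_pos (Finset.mem_univ _), if_pos (Finset.mem_univ _)]

theorem sum_two (x : ℝ) (a b : Fin q) :
    ∑ c : Fin q, (if a = c then x else 1) * (if b = c then x else 1) =
      (2 * x + q - 2) + (if a = b then (x - 1) ^ 2 else 0) := by
  have h : ∀ c : Fin q, (if a = c then x else 1) * (if b = c then x else 1) =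
      1 + (if a = c then (x - 1) else 0) + (if b = c then (x - 1) else 0) +
        (if a = c then (if a = b then (x - 1) ^ 2 else 0) else 0) := by
    intro c
    by_cases h1 : a = c
    · subst h1
      by_cases h2 : b = a
      · subst h2
        simp
        ring
      · simp [h2, Ne.symm h2]
    · by_cases h2 : b = c
      · subst h2
        simp [h1]
      · simp [h1, h2]
  simp_rw [h]
  rw [Finset.sum_add_distrib, Finset.sum_add_distrib, Finset.sum_add_distrib,
    Finset.sum_ite_eq Finset.univ a, Finset.sum_ite_eq Finset.univ b,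
    Finset.sum_ite_eq Finset.univ a, if_pos (Finset.mem_univ _), if_pos (Finset.mem_univ _),
    if_pos (Finset.mem_univ _), Finset.sum_const, Finset.card_univ, Fintype.card_fin,
    nsmul_eq_mul]
  ring

/-- summation over the colours of the middle vertices -/
theorem sum_middle (G : SimpleGraph (Fin n)) [DecidableRel G.Adj] (M : ℕ) (x : ℝ)
    (σ : Fin n → Fin q) (B r : ℝ) (hB : B = 2 * x + q - 2)
    (hr : B + (x - 1) ^ 2 = B * r) :
    ∑ τ : Ed G × Fin M → Fin q, ∏ t, ((if σ t.1.1.1 = τ t then x else 1) *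
      (if σ t.1.1.2 = τ t then x else 1)) =
      B ^ (Fintype.card (Ed G × Fin M)) *
        ∏ p : Fin n × Fin n, (if p.1 < p.2 ∧ G.Adj p.1 p.2 ∧ σ p.1 = σ p.2 then r ^ M else 1) := by
  classical
  have h1 := Finset.sum_prod_piFinset (Finset.univ : Finset (Fin q))
    (fun (t : Ed G × Fin M) (c : Fin q) =>
      (if σ t.1.1.1 = c then x else 1) * (if σ t.1.1.2 = c then x else 1))
  rw [Fintype.piFinset_univ] at h1
  rw [h1]
  have h2 : ∀ t : Ed G × Fin M, ∑ c : Fin q, (if σ t.1.1.1 = c then x else 1) *
      (if σ t.1.1.2 = c then x else 1) = B * (if σ t.1.1.1 = σ t.1.1.2 then r else 1) := by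
    intro t
    rw [sum_two, ← hB]
    split_ifs
    · exact hr
    · ring
  simp_rw [h2]
  rw [Finset.prod_mul_distrib, Finset.prod_const, Finset.card_univ]
  congr 1
  rw [Fintype.prod_prod_type]
  have h3 : ∀ e : Ed G, ∏ _m : Fin M, (if σ e.1.1 = σ e.1.2 then r else 1) =
      if σ e.1.1 = σ e.1.2 then r ^ M else 1 := by
    intro e
    rw [Finset.prod_const, Finset.card_univ, Fintype.card_fin]
    split_ifs
    · rfl
    · rw [one_pow]
  simp_rw [h3]
  rw [← Finset.prod_subtype (Finset.univ.filter fun p : Fin n × Fin n =>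
    p.1 < p.2 ∧ G.Adj p.1 p.2) (by simp)
    (fun p => if σ p.1 = σ p.2 then r ^ M else 1), Finset.prod_filter]
  refine Finset.prod_congr rfl fun p _ => ?_
  by_cases hp : p.1 < p.2 ∧ G.Adj p.1 p.2
  · rw [if_pos hp]
    by_cases hs : σ p.1 = σ p.2
    · rw [if_pos hs, if_pos ⟨hp.1, hp.2, hs⟩]
    · rw [if_neg hs, if_neg fun h => hs h.2.2]
  · rw [if_neg hp, if_neg fun h => hp ⟨h.1, h.2.1⟩]

end Gadget

section Scale

variable {V Q : Type*} [Fintype V] [DecidableEq V] [Fintype Q] [DecidableEq Q]

theorem hb_scale (W : (V → Q) → ℝ) {C : ℝ} (hC : C ≠ 0) (i : V) :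
    hb (fun σ => C * W σ) i = hb W i := by
  funext σ τ
  unfold hb
  split_ifs
  · rw [← Finset.mul_sum, mul_div_mul_left _ _ hC]
  · rfl

theorem sweep_scale (W : (V → Q) → ℝ) {C : ℝ} (hC : C ≠ 0) (l : List V) :
    sweep (fun σ => C * W σ) l = sweep W l := by
  unfold sweep
  have : hb (fun σ => C * W σ) = hb W := funext fun i => hb_scale W hC i
  rw [this]

end Scale

section Constant

variable {V Q : Type*} [Fintype V] [DecidableEq V] [Fintype Q] [DecidableEq Q]

theorem hb_comm_one (i j : V) : hb (fun _ : V → Q => (1 : ℝ)) i * hb (fun _ => 1) j =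
    hb (fun _ => 1) j * hb (fun _ => 1) i := by
  rcases eq_or_ne i j with rfl | hij
  · rfl
  ext σ τ
  have h0 : ∀ a b : V, (hb (fun _ : V → Q => (1 : ℝ)) a * hb (fun _ => 1) b :
      Matrix (V → Q) (V → Q) ℝ) σ τ =
      Matrix.vecMul (fun ρ => hb (fun _ : V → Q => (1 : ℝ)) a σ ρ) (hb (fun _ => 1) b) τ :=
    fun a b => rfl
  have key : ∀ a b : V, a ≠ b → (hb (fun _ : V → Q => (1 : ℝ)) a * hb (fun _ => 1) b :
      Matrix (V → Q) (V → Q) ℝ) σ τ =
      if ∀ k, k ≠ a → k ≠ b → τ k = σ k then
        (1 / (Fintype.card Q : ℝ)) * (1 / (Fintype.card Q : ℝ)) else 0 := by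
    intro a b hab
    rw [h0, vecMul_hb]
    have hs : ∀ ρ : V → Q, ∀ k : V, (∑ _c : Q, (1 : ℝ)) = Fintype.card Q := by
      intro ρ k
      rw [Finset.sum_const, Finset.card_univ, nsmul_eq_mul, mul_one]
    rw [hs τ b]
    unfold hb
    simp_rw [hs σ a]
    by_cases h : ∀ k, k ≠ a → k ≠ b → τ k = σ k
    · rw [if_pos h]
      have h1 : ∀ c : Q, (if ∀ k, k ≠ a → Function.update τ b c k = σ k then
          (1 : ℝ) / (Fintype.card Q : ℝ) else 0) =
          if c = σ b then (1 : ℝ) / (Fintype.card Q : ℝ) else 0 := by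
        intro c
        have : (∀ k, k ≠ a → Function.update τ b c k = σ k) ↔ c = σ b := by
          constructor
          · intro h'
            have := h' b (Ne.symm hab)
            rwa [Function.update_self] at this
          · intro hc k hk
            by_cases hkb : k = b
            · subst hkb
              rw [Function.update_self, hc]
            · rw [Function.update_of_ne hkb]
              exact h k hk hkb
        simp only [this]
      simp_rw [h1]
      rw [Finset.sum_ite_eq' Finset.univ (σ b), if_pos (Finset.mem_univ _)]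
    · rw [if_neg h]
      have h1 : ∀ c : Q, (if ∀ k, k ≠ a → Function.update τ b c k = σ k then
          (1 : ℝ) / (Fintype.card Q : ℝ) else 0) = 0 := by
        intro c
        rw [if_neg]
        intro h'
        refine h fun k hk hkb => ?_
        have := h' k hk
        rwa [Function.update_of_ne hkb] at this
      simp_rw [h1]
      rw [Finset.sum_const_zero, zero_mul]
  rw [key i j hij, key j i hij.symm]
  have : (∀ k, k ≠ i → k ≠ j → τ k = σ k) ↔ (∀ k, k ≠ j → k ≠ i → τ k = σ k) :=
    ⟨fun h k h1 h2 => h k h2 h1, fun h k h1 h2 => h k h2 h1⟩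
  simp only [this]

/-- for the constant weight a sublist can be completed at the end -/
theorem sweep_sublist_one {v w : List V} (h : w.Sublist v) :
    ∃ u : List V, sweep (fun _ : V → Q => (1 : ℝ)) v =
      sweep (fun _ => 1) w * sweep (fun _ => 1) u := by
  obtain ⟨u, hu⟩ := h.exists_perm_append
  refine ⟨u, ?_⟩
  unfold sweep
  rw [← List.prod_append, ← List.map_append]
  refine (hu.map _).prod_eq' ?_
  refine List.pairwise_of_forall_mem_list ?_
  intro a ha b hb'
  rw [List.mem_map] at ha hb'
  obtain ⟨i, -, rfl⟩ := ha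
  obtain ⟨j, -, rfl⟩ := hb'
  exact hb_comm_one i j

/-- a Markov kernel does not increase the distance in norm -/
theorem contract {W : (V → Q) → ℝ} (hW : ∀ σ, 0 < W σ) (f : (V → Q) → ℝ) (u : List V) :
    ∑ τ, |Matrix.vecMul f (sweep W u) τ| ≤ ∑ σ, |f σ| := by
  calc ∑ τ, |Matrix.vecMul f (sweep W u) τ| ≤ ∑ τ, ∑ σ, |f σ| * sweep W u σ τ := by
        refine Finset.sum_le_sum fun τ _ => ?_
        refine (Finset.abs_sum_le_sum_abs _ _).trans (Finset.sum_le_sum fun σ _ => ?_)
        rw [abs_mul, abs_of_nonneg (sweep_nonneg hW u σ τ)]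
    _ = ∑ σ, |f σ| := by
        rw [Finset.sum_comm]
        refine Finset.sum_congr rfl fun σ _ => ?_
        rw [← Finset.mul_sum, sweep_row hW, mul_one]

/-- stationarity of the Gibbs measure -/
theorem stationary {W : (V → Q) → ℝ} (hW : ∀ σ, 0 < W σ) (u : List V) :
    Matrix.vecMul W (sweep W u) = W := by
  induction u with
  | nil => simp [sweep]
  | cons i u ih =>
    have h0 : sweep W (i :: u) = hb W i * sweep W u := by simp [sweep]
    rw [h0, ← Matrix.vecMul_vecMul]
    have h1 : Matrix.vecMul W (hb W i) = W := by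
      funext τ
      rw [vecMul_hb]
      have := (sumW_pos hW i τ).ne'
      field_simp
    rw [h1, ih]

end Constant

end Pool.Agent.H69.Potts
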